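import Pool.Agent.H446.AP5.CurvN

/-!
# Powers with the exponent `p` of power series and of polynomials over them
-/

set_option autoImplicit false

namespace Pool.Agent.H446.AP9

open Finset MvPolynomial
open Pool.Agent.H446.AP5 (mvc coeff_mvc wt LeW LtW Lead)

variable {p : ℕ} [hp : Fact p.Prime]

instance charP_ps : CharP (PowerSeries (ZMod p)) p :=
  charP_of_injective_algebraMap (algebraMap (ZMod p) (PowerSeries (ZMod p))).injective p

lemma coeff_pow_char (c : PowerSeries (ZMod p)) (n : ℕ) :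
    PowerSeries.coeff (p * n) (c ^ p) = PowerSeries.coeff n c := by
  obtain ⟨u, hu⟩ : (PowerSeries.X : PowerSeries (ZMod p)) ^ (n + 1) ∣ c - (PowerSeries.trunc (n + 1) c : Polynomial (ZMod p)) := by
    rw [PowerSeries.X_pow_dvd_iff]
    intro m hm
    rw [map_sub, Polynomial.coeff_coe, PowerSeries.coeff_trunc, if_pos hm, sub_self]
  have h1 : c = ((PowerSeries.trunc (n + 1) c : Polynomial (ZMod p)) : PowerSeries (ZMod p)) +
      PowerSeries.X ^ (n + 1) * u := by
    rw [← hu, add_sub_cancel]
  have h2 : PowerSeries.coeff (p * n) ((PowerSeries.X ^ (n + 1) * u) ^ p) = 0 := by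
    have h3 : (PowerSeries.X : PowerSeries (ZMod p)) ^ (p * (n + 1)) ∣ (PowerSeries.X ^ (n + 1) * u) ^ p := by
      rw [mul_pow, ← pow_mul, mul_comm (n + 1) p]
      exact Dvd.intro _ rfl
    rw [PowerSeries.X_pow_dvd_iff] at h3
    exact h3 _ (Nat.mul_lt_mul_of_pos_left (Nat.lt_succ_self n) hp.out.pos)
  conv_lhs => rw [h1]
  rw [add_pow_char, map_add, h2, add_zero, ← Polynomial.coe_pow, Polynomial.coeff_coe, ← ZMod.expand_card,
    mul_comm p n, Polynomial.coeff_expand_mul hp.out.pos, PowerSeries.coeff_trunc, if_pos (Nat.lt_succ_self n)]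

section

variable {σ R S : Type*} [CommRing R] [CommRing S]

lemma mvc_add {φ : R → S} (h0 : φ 0 = 0) (hφ : ∀ a b, φ (a + b) = φ a + φ b) (f g : MvPolynomial σ R) :
    mvc φ (f + g) = mvc φ f + mvc φ g := by
  ext a
  rw [coeff_mvc h0, coeff_add, hφ, coeff_add, coeff_mvc h0, coeff_mvc h0]

lemma mvc_sub {φ : R → S} (h0 : φ 0 = 0) (hφ : ∀ a b, φ (a - b) = φ a - φ b) (f g : MvPolynomial σ R) :
    mvc φ (f - g) = mvc φ f - mvc φ g := by
  ext a
  rw [coeff_mvc h0, coeff_sub, hφ, coeff_sub, coeff_mvc h0, coeff_mvc h0]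

lemma mvc_monomial {φ : R → S} (h0 : φ 0 = 0) (a : σ →₀ ℕ) (c : R) : mvc φ (monomial a c) = monomial a (φ c) := by
  classical
  ext b
  rw [coeff_mvc h0, coeff_monomial, coeff_monomial]
  split_ifs
  · rfl
  · exact h0

end

/-- The coefficient of `z ^ n` of the coefficients. -/
noncomputable def cz {σ R : Type*} [CommRing R] (n : ℕ) : MvPolynomial σ (PowerSeries R) → MvPolynomial σ R :=
  mvc fun c => PowerSeries.coeff n c

lemma coeff_cz {σ R : Type*} [CommRing R] (n : ℕ) (f : MvPolynomial σ (PowerSeries R)) (a : σ →₀ ℕ) :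
    (cz n f).coeff a = PowerSeries.coeff n (f.coeff a) := coeff_mvc (map_zero _) f a

lemma cz_add {σ R : Type*} [CommRing R] (n : ℕ) (f g : MvPolynomial σ (PowerSeries R)) :
    cz n (f + g) = cz n f + cz n g := mvc_add (map_zero _) (fun a b => map_add _ a b) f g

lemma cz_sub {σ R : Type*} [CommRing R] (n : ℕ) (f g : MvPolynomial σ (PowerSeries R)) :
    cz n (f - g) = cz n f - cz n g := mvc_sub (map_zero _) (fun a b => map_sub _ a b) f g

lemma cz_monomial {σ R : Type*} [CommRing R] (n : ℕ) (a : σ →₀ ℕ) (c : PowerSeries R) :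
    cz n (monomial a c) = monomial a (PowerSeries.coeff n c) := mvc_monomial (map_zero _) a c

/-- The `p`-th powers. -/
lemma cz_pow {σ : Type*} (n : ℕ) (f : MvPolynomial σ (PowerSeries (ZMod p))) : cz (p * n) (f ^ p) = (cz n f) ^ p := by
  induction f using MvPolynomial.induction_on' with
  | monomial a c =>
    rw [monomial_pow, cz_monomial, cz_monomial, monomial_pow, coeff_pow_char, ZMod.pow_card]
  | add f g hf hg => rw [add_pow_char, cz_add, hf, hg, cz_add, add_pow_char]

/-- Evaluation of the coefficients. -/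
lemma coeff_eval {σ : Type*} [Fintype σ] {V : Type*} [CommRing V] {R : Type*} [CommRing R] (φ : R →+* V) (y : σ → V)
    (n : ℕ) (f : MvPolynomial σ (PowerSeries R)) :
    PowerSeries.coeff n (eval₂ (PowerSeries.map φ) (fun s => PowerSeries.C (y s)) f) = eval₂ φ y (cz n f) := by
  induction f using MvPolynomial.induction_on' with
  | monomial a c =>
    rw [cz_monomial, eval₂_monomial, eval₂_monomial, Finsupp.prod_fintype _ _ (fun i => pow_zero _),
      Finsupp.prod_fintype _ _ (fun i => pow_zero _)]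
    simp only [← map_pow]
    rw [← map_prod, PowerSeries.coeff_mul_C, PowerSeries.coeff_map]
  | add f g hf hg => rw [eval₂_add, map_add, hf, hg, cz_add, eval₂_add]

end Pool.Agent.H446.AP9
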