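import Pool.Agent.H446.AP9.Top
import Pool.Agent.H446.AP9.Frob
import Pool.Agent.H446.AP5.Poly

/-!
# Polynomials with given leading forms that vanish modulo `p` at the nilpotent connections
-/

set_option autoImplicit false

namespace Pool.Agent.H446.AP9

open Finset MvPolynomial
open Pool.Agent.H446.AP4 (Sup topc curv map_curv pInt Kap mk_eq_zero_iff)
open Pool.Agent.H446.AP5 (mvc coeff_mvc wt LeW LtW Lead leW_add ltW_add leW_mul ltW_mul TestC aeval_of_kap lead_X
  coeff_charpoly_pow)

/-! ### Homogeneous components -/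

section hom

variable {σ R : Type*} [CommRing R]

lemma hc_mul (a : MvPolynomial σ R) {b : MvPolynomial σ R} {k : ℕ} (hb : b.IsHomogeneous k) (e : ℕ) :
    homogeneousComponent e (a * b) = if k ≤ e then homogeneousComponent (e - k) a * b else 0 := by
  have h1 : a * b = ∑ i ∈ range (a.totalDegree + 1), homogeneousComponent i a * b := by
    rw [← Finset.sum_mul, sum_homogeneousComponent]
  have h2 : ∀ i, homogeneousComponent e (homogeneousComponent i a * b) =
      if e = i + k then homogeneousComponent i a * b else 0 := fun i =>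
    homogeneousComponent_of_mem ((homogeneousComponent_isHomogeneous i a).mul hb)
  rw [h1, map_sum, Finset.sum_congr rfl fun i _ => h2 i]
  split_ifs with h
  · by_cases h3 : e - k ∈ range (a.totalDegree + 1)
    · rw [Finset.sum_eq_single_of_mem (e - k) h3, if_pos (by omega)]
      intro i _ hi
      rw [if_neg (by omega)]
    · rw [mem_range, not_lt] at h3
      rw [homogeneousComponent_eq_zero (e - k) a (by omega), zero_mul]
      refine Finset.sum_eq_zero fun i hi => ?_
      rw [mem_range] at hi
      rw [if_neg (by omega)]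
  · refine Finset.sum_eq_zero fun i _ => ?_
    rw [if_neg (by omega)]

lemma wt_one [Fintype σ] (a : σ →₀ ℕ) : wt (fun _ => 1) a = a.degree := by
  unfold wt
  rw [Finsupp.degree_eq_sum]
  exact Finset.sum_congr rfl fun i _ => mul_one _

lemma IsHomogeneous.leW [Fintype σ] {f : MvPolynomial σ R} {k : ℕ} (h : f.IsHomogeneous k) :
    LeW (fun _ => 1) k f := by
  intro a ha
  rw [wt_one]
  by_contra h1
  exact ha (h.coeff_eq_zero (by omega))

end hom

section fam

variable {σ : Type*} [Fintype σ] {r : ℕ}

section gen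

variable {T : Type*} [CommRing T]

/-- The generic linear family. -/
noncomputable def lm (A₀ : Matrix (Fin r) (Fin r) (PowerSeries T)) (A : σ → Matrix (Fin r) (Fin r) (PowerSeries T)) :
    Matrix (Fin r) (Fin r) (MvPolynomial σ (PowerSeries T)) := Matrix.of fun i j => C (A₀ i j) + ∑ s, C (A s i j) * X s

/-- The generic element of the linear space. -/
noncomputable def tm (A : σ → Matrix (Fin r) (Fin r) (PowerSeries T)) :
    Matrix (Fin r) (Fin r) (MvPolynomial σ (PowerSeries T)) := Matrix.of fun i j => ∑ s, C (A s i j) * X s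

lemma ltop_lm (A₀ : Matrix (Fin r) (Fin r) (PowerSeries T)) (A : σ → Matrix (Fin r) (Fin r) (PowerSeries T)) :
    ltop (fun _ => 1) (fun _ => 0) (lm A₀ A) = tm A := by
  ext1 i j
  exact (sup_linear (fun i j => A₀ i j) (fun s => A s) i j).2

/-- The coefficients of the characteristic polynomial of the generic element. -/
noncomputable def hz (A : σ → Matrix (Fin r) (Fin r) (PowerSeries T)) (i : Fin r × ℕ) : MvPolynomial σ T :=
  cz i.2 ((tm A).charpoly.coeff i.1)

lemma charpoly_tm_hom (A : σ → Matrix (Fin r) (Fin r) (PowerSeries T)) (j : Fin r) :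
    ((tm A).charpoly.coeff j).IsHomogeneous (r - j) := by
  have h1 := Matrix.charpoly.univ_coeff_isHomogeneous (n := Fin r) (PowerSeries T) j (r - j) (by
    rw [Fintype.card_fin]
    have := j.2
    omega)
  have h2 := h1.eval₂ (C : PowerSeries T →+* MvPolynomial σ (PowerSeries T)) (fun i : Fin r × Fin r => tm A i.1 i.2)
    (fun c => isHomogeneous_C _ c) (n := 1) (fun i => IsHomogeneous.sum _ _ _ fun s _ => isHomogeneous_C_mul_X _ _)
  rw [one_mul] at h2
  have h3 := Matrix.charpoly.univ_coeff_eval₂Hom (Fin r) (C : PowerSeries T →+* MvPolynomial σ (PowerSeries T))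
    (fun i : Fin r × Fin r => tm A i.1 i.2) (j : ℕ)
  have h4 : (Matrix.of (Function.curry fun i : Fin r × Fin r => tm A i.1 i.2)) = tm A := by
    ext1 i j
    rfl
  rw [h4] at h3
  rw [← h3]
  exact h2

lemma hz_hom (A : σ → Matrix (Fin r) (Fin r) (PowerSeries T)) (i : Fin r × ℕ) : (hz A i).IsHomogeneous (r - i.1) := by
  intro a ha
  unfold hz at ha
  rw [coeff_cz] at ha
  refine charpoly_tm_hom A i.1 fun h => ha ?_
  rw [h, map_zero]

end gen

/-! ### The members of a family -/

/-- The member of the family. -/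
noncomputable def am {T : Type*} [CommRing T] (A₀ : Matrix (Fin r) (Fin r) (PowerSeries ℤ))
    (A : σ → Matrix (Fin r) (Fin r) (PowerSeries ℤ)) (c : σ → T) : Matrix (Fin r) (Fin r) (PowerSeries T) :=
  Matrix.of fun i j => (A₀ i j).map (Int.castRingHom T) + ∑ s, PowerSeries.C (c s) * (A s i j).map (Int.castRingHom T)

/-- Its curvature. -/
noncomputable def gm {T : Type*} [CommRing T] (p : ℕ) (A₀ : Matrix (Fin r) (Fin r) (PowerSeries ℤ))
    (A : σ → Matrix (Fin r) (Fin r) (PowerSeries ℤ)) (c : σ → T) : Matrix (Fin r) (Fin r) (PowerSeries T) :=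
  curv (fun f => PowerSeries.derivative T f) 1 (am A₀ A c) p

lemma map_map' {R S T : Type*} [CommRing R] [CommRing S] [CommRing T] (f : R →+* S) (g : S →+* T)
    (q : PowerSeries R) : PowerSeries.map g (PowerSeries.map f q) = PowerSeries.map (g.comp f) q := by
  ext n
  rw [PowerSeries.coeff_map, PowerSeries.coeff_map, PowerSeries.coeff_map]
  rfl

lemma map_deriv {R T : Type*} [CommRing R] [CommRing T] (f : R →+* T) (q : PowerSeries R) :
    PowerSeries.map f (PowerSeries.derivative R q) = PowerSeries.derivative T (PowerSeries.map f q) := by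
  ext n
  rw [PowerSeries.coeff_map, PowerSeries.coeff_derivative, PowerSeries.coeff_derivative, PowerSeries.coeff_map, map_mul,
    map_add, map_natCast, map_one]

lemma map_gm {R T : Type*} [CommRing R] [CommRing T] (f : R →+* T) (p : ℕ)
    (A₀ : Matrix (Fin r) (Fin r) (PowerSeries ℤ)) (A : σ → Matrix (Fin r) (Fin r) (PowerSeries ℤ)) (c : σ → R) :
    (gm p A₀ A c).map (PowerSeries.map f) = gm p A₀ A (fun s => f (c s)) := by
  unfold gm
  have h1 : ∀ q : PowerSeries ℤ, PowerSeries.map f (PowerSeries.map (Int.castRingHom R) q) =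
      PowerSeries.map (Int.castRingHom T) q := by
    intro q
    rw [map_map']
    congr 2
    exact RingHom.ext_int _ _
  rw [map_curv (PowerSeries.map f) (δ' := fun q => PowerSeries.derivative T q) (fun q => map_deriv f q), map_one]
  congr 1
  ext1 i j
  simp only [am, Matrix.map_apply, Matrix.of_apply]
  rw [map_add, h1, map_sum]
  congr 1
  refine Finset.sum_congr rfl fun s _ => ?_
  rw [map_mul, h1, PowerSeries.map_C]

/-! ### The local theorem -/

variable {p : ℕ} [hp : Fact p.Prime]

/-- Reduction of the matrices. -/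
noncomputable def rd (p : ℕ) (M : Matrix (Fin r) (Fin r) (PowerSeries ℤ)) :
    Matrix (Fin r) (Fin r) (PowerSeries (ZMod p)) := M.map (PowerSeries.map (Int.castRingHom (ZMod p)))

/-- The derivation modulo `p`. -/
noncomputable def dz (p : ℕ) : PowerSeries (ZMod p) → PowerSeries (ZMod p) := fun f => PowerSeries.derivative (ZMod p) f

lemma dz_zero : dz p 0 = 0 := map_zero _

/-- The coefficients of the characteristic polynomial of the generic curvature. -/
noncomputable def gz (p : ℕ) [Fact p.Prime] (A₀ : Matrix (Fin r) (Fin r) (PowerSeries ℤ))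
    (A : σ → Matrix (Fin r) (Fin r) (PowerSeries ℤ)) (i : Fin r × ℕ) : MvPolynomial σ (ZMod p) :=
  cz (p * i.2) ((cm p (dz p) (lm (rd p A₀) fun s => rd p (A s))).charpoly.coeff i.1)

lemma gz_sub (A₀ : Matrix (Fin r) (Fin r) (PowerSeries ℤ)) (A : σ → Matrix (Fin r) (Fin r) (PowerSeries ℤ))
    (i : Fin r × ℕ) : LtW (fun _ => 1) (p * (r - i.1)) (gz p A₀ A i - hz (fun s => rd p (A s)) i ^ p) := by
  have hA : ∀ k l : Fin r, Sup (1 + (fun _ : Fin r => (0 : ℝ)) k - (fun _ : Fin r => (0 : ℝ)) l)
      (Pool.Agent.H446.AP5.sc (fun _ => 1) (lm (rd p A₀) (fun s => rd p (A s)) k l)) := fun k l =>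
    (sup_linear (fun k l => rd p A₀ k l) (fun s => rd p (A s)) k l).1
  have key := fun a h => coeff_charpoly_cm (dz_zero (p := p)) hA (p := p) i.1 a h
  rw [ltop_lm] at key
  intro a ha
  have h1 : hz (fun s => rd p (A s)) i ^ p = cz (p * i.2) (((tm fun s => rd p (A s)) ^ p).charpoly.coeff i.1) := by
    rw [coeff_charpoly_pow, cz_pow]
    rfl
  rw [h1] at ha
  unfold gz at ha
  rw [coeff_sub, coeff_cz, coeff_cz] at ha
  rcases lt_trichotomy (wt (fun _ => 1) a) (p * (r - i.1)) with h2 | h2 | h2
  · exact h2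
  · exfalso
    apply ha
    rw [(key a (Or.inr h2)).2 h2, sub_self]
  · exfalso
    apply ha
    have h3 : ((cm p (dz p) (lm (rd p A₀) fun s => rd p (A s))).charpoly.coeff i.1).coeff a = 0 := by
      by_contra h3
      have := (key a (Or.inl h3)).1
      omega
    have h4 : (((tm fun s => rd p (A s)) ^ p).charpoly.coeff i.1).coeff a = 0 := by
      rw [coeff_charpoly_pow]
      refine ((charpoly_tm_hom (fun s => rd p (A s)) i.1).pow p).coeff_eq_zero ?_
      rw [← wt_one, mul_comm]
      omega
    rw [h3, h4, sub_self]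

/-- The coefficients vanish at the nilpotent members. -/
lemma eval_gz {V : Type*} [CommRing V] [CharP V p] (A₀ : Matrix (Fin r) (Fin r) (PowerSeries ℤ))
    (A : σ → Matrix (Fin r) (Fin r) (PowerSeries ℤ)) (y : σ → V) (i : Fin r × ℕ)
    (hnil : (gm p A₀ A y).charpoly.coeff i.1 = 0) :
    eval₂ (ZMod.castHom (dvd_refl p) V) y (gz p A₀ A i) = 0 := by
  unfold gz
  rw [← coeff_eval]
  set ψ : MvPolynomial σ (PowerSeries (ZMod p)) →+* PowerSeries V :=
    eval₂Hom (PowerSeries.map (ZMod.castHom (dvd_refl p) V)) (fun s => PowerSeries.C (y s)) with hψ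
  have h1 : ∀ f, ψ (mvc (dz p) f) = PowerSeries.derivative V (ψ f) := by
    intro f
    induction f using MvPolynomial.induction_on' with
    | monomial a c =>
      rw [mvc_monomial dz_zero, hψ, eval₂Hom_monomial, eval₂Hom_monomial, Finsupp.prod_fintype _ _ (fun i => pow_zero _)]
      simp only [← map_pow]
      rw [← map_prod]
      show PowerSeries.map _ (PowerSeries.derivative (ZMod p) c) * _ = _
      rw [map_deriv, Derivation.leibniz, PowerSeries.derivative_C, smul_zero, zero_add, smul_eq_mul, mul_comm]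
    | add f g hf hg =>
      rw [mvc_add dz_zero (fun a b => map_add _ a b), map_add, hf, hg, map_add, map_add]
  have h2 : ∀ q : PowerSeries ℤ, ψ (C (PowerSeries.map (Int.castRingHom (ZMod p)) q)) =
      PowerSeries.map (Int.castRingHom V) q := by
    intro q
    rw [hψ, coe_eval₂Hom, eval₂_C, map_map']
    congr 2
    exact RingHom.ext_int _ _
  have h3 : (cm p (dz p) (lm (rd p A₀) fun s => rd p (A s))).map ψ = gm p A₀ A y := by
    unfold cm gm
    rw [map_curv ψ (δ' := fun q => PowerSeries.derivative V q) h1, map_one]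
    congr 1
    ext1 i j
    simp only [am, lm, rd, Matrix.map_apply, Matrix.of_apply]
    rw [map_add, h2, map_sum]
    congr 1
    refine Finset.sum_congr rfl fun s _ => ?_
    rw [map_mul, h2, mul_comm]
    congr 1
    rw [hψ, eval₂Hom_X']
  have h4 : ψ ((cm p (dz p) (lm (rd p A₀) fun s => rd p (A s))).charpoly.coeff i.1) = 0 := by
    rw [← hnil, ← h3, Matrix.charpoly_map, Polynomial.coeff_map]
  have h5 : eval₂ (PowerSeries.map (ZMod.castHom (dvd_refl p) V)) (fun s => PowerSeries.C (y s))
      ((cm p (dz p) (lm (rd p A₀) fun s => rd p (A s))).charpoly.coeff i.1) = 0 := h4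
  rw [h5, map_zero]

/-- **The polynomials over the prime field.** -/
theorem exists_poly (A₀ : Matrix (Fin r) (Fin r) (PowerSeries ℤ)) (A : σ → Matrix (Fin r) (Fin r) (PowerSeries ℤ))
    {e : ℕ} {s : σ} (he : (X s : MvPolynomial σ (ZMod p)) ^ e ∈
      Ideal.span (Set.range (hz fun s => rd p (A s)))) :
    ∃ F : MvPolynomial σ (ZMod p), LtW (fun _ => 1) (e * p) (F - X s ^ (e * p)) ∧
      ∀ (V : Type) [CommRing V] [CharP V p] (y : σ → V), (∀ j : Fin r, (gm p A₀ A y).charpoly.coeff j = 0) →
        eval₂ (ZMod.castHom (dvd_refl p) V) y F = 0 := by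
  classical
  rw [Finsupp.mem_ideal_span_range_iff_exists_finsupp] at he
  obtain ⟨c, hc⟩ := he
  have h1 := congrArg (homogeneousComponent e) hc
  rw [homogeneousComponent_eq_self (isHomogeneous_X_pow s e), Finsupp.sum, map_sum] at h1
  have h2 : ∀ i : Fin r × ℕ, homogeneousComponent e (c i * hz (fun s => rd p (A s)) i) =
      if r - i.1 ≤ e then homogeneousComponent (e - (r - i.1)) (c i) * hz (fun s => rd p (A s)) i else 0 := fun i =>
    hc_mul (c i) (hz_hom _ i) e
  rw [Finset.sum_congr rfl fun i _ => h2 i] at h1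
  refine ⟨∑ i ∈ c.support, if r - i.1 ≤ e then homogeneousComponent (e - (r - i.1)) (c i) ^ p * gz p A₀ A i else 0,
    ?_, ?_⟩
  · have h3 : (X s : MvPolynomial σ (ZMod p)) ^ (e * p) = ∑ i ∈ c.support, if r - i.1 ≤ e then
        homogeneousComponent (e - (r - i.1)) (c i) ^ p * hz (fun s => rd p (A s)) i ^ p else 0 := by
      rw [pow_mul, ← h1, sum_pow_char]
      refine Finset.sum_congr rfl fun i _ => ?_
      split_ifs
      · rw [mul_pow]
      · exact zero_pow hp.out.ne_zero
    rw [h3, ← Finset.sum_sub_distrib]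
    have h4 : ∀ t : Finset (Fin r × ℕ), LtW (fun _ => 1) (e * p) (∑ i ∈ t,
        ((if r - i.1 ≤ e then homogeneousComponent (e - (r - i.1)) (c i) ^ p * gz p A₀ A i else 0) -
          if r - i.1 ≤ e then
            homogeneousComponent (e - (r - i.1)) (c i) ^ p * hz (fun s => rd p (A s)) i ^ p else 0)) := by
      intro t
      induction t using Finset.induction_on with
      | empty =>
        rw [Finset.sum_empty]
        intro a ha
        exact absurd (coeff_zero a) ha
      | insert i t hi ih =>
        rw [Finset.sum_insert hi]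
        refine ltW_add ?_ ih
        split_ifs with h5
        · rw [← mul_sub]
          have h6 : e * p = p * (e - (r - i.1)) + p * (r - i.1) := by
            rw [← mul_add, Nat.sub_add_cancel h5, mul_comm]
          rw [h6]
          refine ltW_mul ?_ (gz_sub A₀ A i)
          have h7 := IsHomogeneous.leW ((homogeneousComponent_isHomogeneous (e - (r - i.1)) (c i)).pow p)
          rwa [mul_comm] at h7
        · rw [sub_self]
          intro a ha
          exact absurd (coeff_zero a) ha
    exact h4 _
  · intro V _ _ y hnil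
    rw [eval₂_sum]
    refine Finset.sum_eq_zero fun i _ => ?_
    split_ifs
    · rw [eval₂_mul, eval_gz A₀ A y i (hnil i.1), mul_zero]
    · exact eval₂_zero _ _

/-- **The test.** -/
theorem testC_of_nilp (A₀ : Matrix (Fin r) (Fin r) (PowerSeries ℤ)) (A : σ → Matrix (Fin r) (Fin r) (PowerSeries ℤ))
    {e : ℕ} (he : ∀ s, (X s : MvPolynomial σ (ZMod p)) ^ e ∈ Ideal.span (Set.range (hz fun s => rd p (A s))))
    {ω : σ → ℂ} (hω : ∀ s, ω s ∈ pInt p)
    (hnil : ∀ (j : Fin r) (l : ℕ), ∃ y ∈ pInt p, PowerSeries.coeff l ((gm p A₀ A ω).charpoly.coeff j) = p * y) :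
    TestC (fun _ => 1) p (e * p) ω := by
  obtain ⟨z, hz'⟩ : ∃ z : σ → pInt p, ∀ s, (z s : ℂ) = ω s := ⟨fun s => ⟨ω s, hω s⟩, fun s => rfl⟩
  have hcoef : ∀ (j : Fin r), (gm p A₀ A
      (fun s => Ideal.Quotient.mk (Ideal.span {((p : ℕ) : pInt p)}) (z s))).charpoly.coeff j = 0 := by
    intro j
    rw [← map_gm, Matrix.charpoly_map, Polynomial.coeff_map]
    ext l
    rw [PowerSeries.coeff_map, map_zero]
    have h1 := map_gm (pInt p).subtype p A₀ A z
    have h3 : (fun s => (pInt p).subtype (z s)) = ω := by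
      funext s
      exact hz' s
    rw [h3] at h1
    have h2 : PowerSeries.coeff l ((((gm p A₀ A z).map (PowerSeries.map (pInt p).subtype)).charpoly).coeff j) =
        ((PowerSeries.coeff l ((gm p A₀ A z).charpoly.coeff j) : pInt p) : ℂ) := by
      rw [Matrix.charpoly_map, Polynomial.coeff_map, PowerSeries.coeff_map]
      rfl
    rw [h1] at h2
    obtain ⟨y, hy, hy'⟩ := hnil j l
    refine (mk_eq_zero_iff _).2 ⟨y, hy, ?_⟩
    rw [← h2]
    exact hy'
  have key := fun s => exists_poly A₀ A (he s)
  choose F hF hF' using key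
  have hval0 : (fun c : ZMod p => (c.val : ℤ)) 0 = 0 := by simp
  refine ⟨hp, hω, fun s => X s ^ (e * p) + mvc (fun c : ZMod p => (c.val : ℤ)) (F s - X s ^ (e * p)), fun s => ⟨?_, ?_⟩,
    fun s => aeval_of_kap z hz' ?_⟩
  · exact ((lead_X (R := ℤ) (fun _ => 1) s).pow (e * p)).1
  · rw [add_sub_cancel_left, mul_one]
    intro a ha
    rw [coeff_mvc hval0] at ha
    exact hF s a fun h0 => ha (by rw [h0]; simp)
  · have h1 : MvPolynomial.map (Int.castRingHom (ZMod p))
        (X s ^ (e * p) + mvc (fun c : ZMod p => (c.val : ℤ)) (F s - X s ^ (e * p))) = F s := by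
      have h2 : MvPolynomial.map (Int.castRingHom (ZMod p)) (mvc (fun c : ZMod p => (c.val : ℤ))
          (F s - X s ^ (e * p))) = F s - X s ^ (e * p) := by
        ext a
        rw [coeff_map, coeff_mvc hval0, eq_intCast, Int.cast_natCast, ZMod.natCast_val, ZMod.cast_id]
      rw [map_add, map_pow, map_X, h2, add_sub_cancel]
    have h3 : Int.castRingHom (Kap p) = (ZMod.castHom (dvd_refl p) (Kap p)).comp (Int.castRingHom (ZMod p)) :=
      RingHom.ext_int _ _
    rw [h3, ← eval₂_map, h1]
    exact hF' s (Kap p) _ hcoef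

end fam

end Pool.Agent.H446.AP9
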