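import Pool.Agent.H446.AP5.Fin5

/-!
# Points of bounded height, with tests of the exponent `c p`
-/

set_option autoImplicit false

namespace Pool.Agent.H446.AP9

open Finset Module Polynomial Pool.Agent.H446.AP Pool.Agent.H446.AP2
open Pool.Agent.H446.AP4 (pInt theta_prs Kap)
open Pool.Agent.H446.AP5

variable {σ : Type*} [Fintype σ]

/-- **One point of large degree.** -/
theorem single9 {d : σ → ℕ} {n c₀ : ℕ} (hn : 0 < n) (hc₀ : 0 < c₀) (hd : ∀ i, 1 ≤ d i ∧ d i ≤ n) :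
    ∃ C : ℝ, 0 ≤ C ∧ ∀ (G : ℕ → Prop) (y x H : ℝ), 1 ≤ y → y ≤ x → 0 ≤ H → ∀ (ω : σ → ℂ) (P : σ → ℤ[X]),
      (∀ i, Orb (P i) ∧ Real.log (mm (P i)) ≤ (P i).natDegree * H ∧ aeval (ω i) (P i) = 0) →
      (∀ p ∈ prs y x, G p → TestC d p (c₀ * p) ω) → x ≤ sdeg d ω →
        Real.log (x / y) - 2 * n * c₀ * Fintype.card σ * H - C ≤ bad5 G y x := by
  classical
  obtain ⟨c, hc0, hc⟩ := mertens
  refine ⟨2 * c + 6 * n * c₀ * Fintype.card σ, by positivity, fun G y x H hy hyx hH ω P hP hT hN => ?_⟩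
  have hωalg : ∀ i, IsAlgebraic ℚ (ω i) := fun i => algebraic_of (hP i).1 (hP i).2.2
  let K := IntermediateField.adjoin ℚ (Set.range ω)
  have hfd : FiniteDimensional ℚ K := IntermediateField.finiteDimensional_adjoin (by
    rintro _ ⟨i, rfl⟩
    exact (hωalg i).isIntegral)
  let ξ : σ → K := fun i => ⟨ω i, IntermediateField.subset_adjoin _ _ ⟨i, rfl⟩⟩
  have hξ : ∀ i, (ξ i : ℂ) = ω i := fun i => rfl
  have htop := adjoin_top (algebraMap K ℂ).toRatAlgHom (fun z => mem_adj hωalg z) ξ hξ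
  set m := Fintype.card σ with hm
  set D := dg d ξ with hD
  set N := finrank ℚ K with hNdef
  have hN1 : (0 : ℝ) < N := by exact_mod_cast finrank_pos (R := ℚ) (M := K)
  have hNle : (N : ℝ) ≤ ((D : ℝ) + 1) ^ m := by
    have := finrank_le (fun i => (hd i).1) ξ htop
    exact_mod_cast this
  have hxD : x ≤ D := by
    rw [hD, dg_eq d ω (algebraMap K ℂ).toRatAlgHom (fun z =>
      ⟨fun h => ⟨⟨z, h⟩, rfl⟩, by rintro ⟨w, rfl⟩; exact w.2⟩) ξ hξ]
    exact hN
  have hD1 : (1 : ℝ) ≤ D := by linarith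
  set Q := (prs y x).filter (fun p => G p) with hQ
  have hcore := core5 hn hc₀ hd htop (H := H) (P := P) (fun i => ⟨(hP i).1, (hP i).2.1, by
    have h1 := (hP i).2.2
    rw [← hξ i] at h1
    have h2 : (aeval ((ξ i : K) : ℂ) (P i)) = ((aeval (ξ i) (P i) : K) : ℂ) := by
      rw [aeval_def, aeval_def]
      show _ = (algebraMap K ℂ) _
      rw [hom_eval₂]
      congr 1
    rw [h2] at h1
    exact_mod_cast h1⟩) Q (fun p hp => by
      obtain ⟨hp1, hp2⟩ := mem_filter.1 hp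
      have h1 := hT p hp1 hp2
      exact ⟨h1.1.out, testM_of_testC h1 ξ (algebraMap K ℂ) hξ⟩)
  have h1 := (sum_prs hc hy hyx).1
  have hbad : ∑ p ∈ Q, Real.log p / p + bad5 G y x = ∑ p ∈ prs y x, Real.log p / p :=
    Finset.sum_filter_add_sum_filter_not _ _ _
  have hlogN : Real.log N ≤ m * D := by
    have h3 := Real.log_le_log hN1 hNle
    rw [Real.log_pow] at h3
    have h4 := Real.log_le_sub_one_of_pos (by positivity : (0 : ℝ) < (D : ℝ) + 1)
    have h5 : (m : ℝ) * Real.log ((D : ℝ) + 1) ≤ m * D := by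
      refine mul_le_mul_of_nonneg_left (by linarith) (Nat.cast_nonneg m)
    linarith
  have hθ : ∑ p ∈ Q, Real.log p ≤ 2 * D := by
    refine ((Finset.sum_le_sum_of_subset_of_nonneg (filter_subset _ _) fun p _ _ => logp_nonneg p).trans
      (theta_prs (by linarith))).trans (by linarith)
  have hn0 : (0 : ℝ) < n := by exact_mod_cast hn
  have hc00 : (0 : ℝ) < c₀ := by exact_mod_cast hc₀
  have hsum : ∑ p ∈ Q, Real.log p * ((D : ℝ) / (2 * n * (c₀ * p)) - m) =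
      (D : ℝ) / (2 * n * c₀) * ∑ p ∈ Q, Real.log p / p - m * ∑ p ∈ Q, Real.log p := by
    rw [Finset.mul_sum, Finset.mul_sum, ← Finset.sum_sub_distrib]
    refine Finset.sum_congr rfl fun p hp => ?_
    have hp0 : (p : ℝ) ≠ 0 := by
      have := (hT p (mem_filter.1 hp).1 (mem_filter.1 hp).2).1.out.ne_zero
      exact_mod_cast this
    field_simp
  rw [hsum] at hcore
  have h6 : (D : ℝ) / (2 * n * c₀) * ∑ p ∈ Q, Real.log p / p ≤
      (D : ℝ) / (2 * n * c₀) * (2 * n * c₀ * m * H + 6 * n * c₀ * m) := by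
    have h7 : (m : ℝ) * ∑ p ∈ Q, Real.log p ≤ m * (2 * D) := mul_le_mul_of_nonneg_left hθ (Nat.cast_nonneg m)
    have h8 : (D : ℝ) / (2 * n * c₀) * (2 * n * c₀ * m * H + 6 * n * c₀ * m) = D * (m * H) + 3 * m * D := by
      field_simp
      ring
    rw [h8]
    linarith
  have h9 := le_of_mul_le_mul_left h6 (by positivity)
  linarith

theorem finite9 {d : σ → ℕ} {n c₀ : ℕ} (hn : 0 < n) (hc₀ : 0 < c₀) (hd : ∀ i, 1 ≤ d i ∧ d i ≤ n)
    (hσ : 0 < Fintype.card σ) {β : ℝ} (hβ : 0 < β) (M : ℝ) : ∃ C : ℝ, 1 ≤ C ∧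
      ∀ (G : ℕ → (σ → ℂ) → Prop) (y H x : ℝ), 1 ≤ y → 0 ≤ H →
      x = C * y * Real.exp (2 * n * c₀ * Fintype.card σ * H / β) →
        (∀ p ∈ prs y x, ∀ ω, G p ω → TestC d p (c₀ * p) ω) →
          (Few5 G β M y x H).Finite ∧ ∀ ω ∈ Few5 G β M y x H, (fdeg ω : ℝ) < (x + 1) ^ Fintype.card σ := by
  classical
  obtain ⟨C₁, hC₁, hC⟩ := single9 hn hc₀ hd
  refine ⟨Real.exp ((C₁ + |M| + 1) / β), Real.one_le_exp (by positivity), fun G y H x hy hH hx hT => ?_⟩
  have hxy : y ≤ x := by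
    rw [hx, mul_comm _ y, mul_assoc]
    have h1 : 1 ≤ Real.exp ((C₁ + |M| + 1) / β) := Real.one_le_exp (by positivity)
    have h2 : 1 ≤ Real.exp (2 * n * c₀ * Fintype.card σ * H / β) := Real.one_le_exp (by positivity)
    have h3 : 1 ≤ Real.exp ((C₁ + |M| + 1) / β) * Real.exp (2 * n * c₀ * Fintype.card σ * H / β) :=
      one_le_mul_of_one_le_of_one_le h1 h2
    nlinarith
  have hlog : Real.log (x / y) = (C₁ + |M| + 1) / β + 2 * n * c₀ * Fintype.card σ * H / β := by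
    have h1 : x / y = Real.exp ((C₁ + |M| + 1) / β + 2 * n * c₀ * Fintype.card σ * H / β) := by
      rw [hx, Real.exp_add]
      field_simp
    rw [h1, Real.log_exp]
  have hdeg : ∀ ω ∈ Few5 G β M y x H, (fdeg ω : ℝ) < (x + 1) ^ Fintype.card σ := by
    rintro ω ⟨⟨P, hP⟩, hbad⟩
    by_contra hcon
    rw [not_lt] at hcon
    have hω : ∀ i, IsAlgebraic ℚ (ω i) := fun i => algebraic_of (hP i).1 (hP i).2.2
    have hcon' : x ≤ sdeg d ω := by
      have h0 : (fdeg ω : ℝ) ≤ ((sdeg d ω : ℝ) + 1) ^ Fintype.card σ := by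
        exact_mod_cast fdeg_le (fun i => (hd i).1) hω
      have h2 := (pow_le_pow_iff_left₀ (by linarith) (by positivity) hσ.ne').1 (hcon.trans h0)
      linarith
    have h1 := hC (fun p => G p ω) y x H hy hxy hH ω P hP (fun p hp hg => hT p hp ω hg) hcon'
    have h2 := h1.trans hbad
    have h3 : β * Real.log (x / y) ≤ 2 * n * c₀ * Fintype.card σ * H + C₁ + M := by linarith
    rw [hlog, ← add_div, mul_div_cancel₀ _ hβ.ne'] at h3
    have h4 := le_abs_self M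
    linarith
  refine ⟨?_, hdeg⟩
  obtain ⟨d₀, hd₀⟩ : ∃ d₀ : ℕ, (x + 1) ^ Fintype.card σ ≤ d₀ := exists_nat_ge _
  have hA := Polynomial.finite_mahlerMeasure_le d₀ (Real.toNNReal (Real.exp (d₀ * H)))
  set A := {p : ℤ[X] | p.natDegree ≤ d₀ ∧ (p.map (Int.castRingHom ℂ)).mahlerMeasure ≤
    ((Real.toNNReal (Real.exp (d₀ * H)) : NNReal) : ℝ)} with hAdef
  have hR : (⋃ P ∈ A, {z : ℂ | P ≠ 0 ∧ aeval z P = 0}).Finite := by
    refine hA.biUnion fun P _ => ?_
    by_cases hP : P = 0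
    · have h1 : {z : ℂ | P ≠ 0 ∧ aeval z P = 0} = ∅ := by
        ext z
        simp [hP]
      rw [h1]
      exact Set.finite_empty
    · refine (P.aroots ℂ).toFinset.finite_toSet.subset ?_
      rintro z ⟨h1, h2⟩
      rw [Finset.mem_coe, Multiset.mem_toFinset, mem_aroots]
      exact ⟨h1, h2⟩
  refine (Set.Finite.pi' fun _ : σ => hR).subset ?_
  intro ω hω i
  have h1 := hdeg ω hω
  obtain ⟨⟨P, hP⟩, -⟩ := hω
  have h2 := natDegree_le_fdeg (fun i => algebraic_of (hP i).1 (hP i).2.2) (hP i).1 (hP i).2.2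
  have h3 : (P i).natDegree ≤ d₀ := by
    have : ((P i).natDegree : ℝ) ≤ d₀ := by
      have h4 : ((P i).natDegree : ℝ) ≤ fdeg ω := by exact_mod_cast h2
      linarith
    exact_mod_cast this
  rw [Set.mem_iUnion₂]
  refine ⟨P i, ⟨h3, ?_⟩, (hP i).1.ne_zero, (hP i).2.2⟩
  rw [Real.coe_toNNReal _ (Real.exp_pos _).le]
  have h5 := (hP i).2.1
  have h6 := one_le_mm (hP i).1.ne_zero
  have h7 : mm (P i) = Real.exp (Real.log (mm (P i))) := (Real.exp_log (by linarith)).symm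
  show mm (P i) ≤ _
  rw [h7]
  refine Real.exp_le_exp.2 (h5.trans ?_)
  have h8 : ((P i).natDegree : ℝ) ≤ d₀ := by exact_mod_cast h3
  exact mul_le_mul_of_nonneg_right h8 hH

end Pool.Agent.H446.AP9
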