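import Pool.Agent.H446.AP9.Loc

/-!
# The ideal of the coefficients of the characteristic polynomial of a very stable linear space
-/

set_option autoImplicit false

namespace Pool.Agent.H446.AP9

open Finset MvPolynomial

variable {σ : Type*} [Fintype σ] {r : ℕ}

/-- Change of the ring of the coefficients. -/
lemma map_hz {T T' : Type*} [CommRing T] [CommRing T'] (φ : T →+* T')
    (A : σ → Matrix (Fin r) (Fin r) (PowerSeries T)) (i : Fin r × ℕ) :
    MvPolynomial.map φ (hz A i) = hz (fun s => (A s).map (PowerSeries.map φ)) i := by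
  have h1 : (tm A).map (MvPolynomial.map (PowerSeries.map φ)) = tm fun s => (A s).map (PowerSeries.map φ) := by
    ext1 i j
    simp only [tm, Matrix.map_apply, Matrix.of_apply]
    rw [map_sum]
    refine Finset.sum_congr rfl fun s _ => ?_
    rw [map_mul, map_C, map_X]
  ext a
  unfold hz
  rw [coeff_map, coeff_cz, coeff_cz, ← PowerSeries.coeff_map, ← coeff_map, ← Polynomial.coeff_map,
    ← Matrix.charpoly_map, h1]

/-- The value of the generic element. -/
lemma eval_hz {V : Type*} [CommRing V] (A : σ → Matrix (Fin r) (Fin r) (PowerSeries ℤ)) (c : σ → V)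
    (i : Fin r × ℕ) : eval₂ (Int.castRingHom V) c (hz A i) =
      PowerSeries.coeff i.2 ((Matrix.of fun k l => ∑ s, PowerSeries.C (c s) *
        (A s k l).map (Int.castRingHom V)).charpoly.coeff i.1) := by
  set ψ : MvPolynomial σ (PowerSeries ℤ) →+* PowerSeries V :=
    eval₂Hom (PowerSeries.map (Int.castRingHom V)) (fun s => PowerSeries.C (c s)) with hψ
  have h1 : (tm A).map ψ = Matrix.of fun k l => ∑ s, PowerSeries.C (c s) *
        (A s k l).map (Int.castRingHom V) := by
    ext1 k l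
    simp only [tm, Matrix.map_apply, Matrix.of_apply]
    rw [map_sum]
    refine Finset.sum_congr rfl fun s _ => ?_
    rw [map_mul, hψ, eval₂Hom_C, eval₂Hom_X', mul_comm]
  unfold hz
  rw [← coeff_eval, ← h1, Matrix.charpoly_map, Polynomial.coeff_map]
  rfl

omit [Fintype σ] in
/-- Denominators of a polynomial. -/
lemma exists_den (f : MvPolynomial σ ℚ) :
    ∃ N : ℤ, N ≠ 0 ∧ ∃ g : MvPolynomial σ ℤ, C (N : ℚ) * f = MvPolynomial.map (Int.castRingHom ℚ) g := by
  induction f using MvPolynomial.induction_on' with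
  | monomial a c =>
    refine ⟨c.den, by exact_mod_cast c.den_nz, monomial a c.num, ?_⟩
    rw [C_mul_monomial, map_monomial]
    congr 1
    rw [Int.cast_natCast, Rat.den_mul_eq_num]
    rfl
  | add f g hf hg =>
    obtain ⟨N, hN, f', hf'⟩ := hf
    obtain ⟨M, hM, g', hg'⟩ := hg
    refine ⟨N * M, mul_ne_zero hN hM, C M * f' + C N * g', ?_⟩
    rw [map_add, map_mul, map_mul, ← hf', ← hg', map_C, map_C, eq_intCast, eq_intCast, Int.cast_mul, C_mul]
    ring

omit [Fintype σ] in
/-- Denominators in an ideal. -/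
lemma exists_den_ideal {ι : Type*} (h : ι → MvPolynomial σ ℤ) {f : MvPolynomial σ ℚ}
    (hf : f ∈ Ideal.span (Set.range fun i => MvPolynomial.map (Int.castRingHom ℚ) (h i))) :
    ∃ N : ℤ, N ≠ 0 ∧ ∃ g ∈ Ideal.span (Set.range h), C (N : ℚ) * f = MvPolynomial.map (Int.castRingHom ℚ) g := by
  induction hf using Submodule.span_induction with
  | mem x hx =>
    obtain ⟨i, rfl⟩ := hx
    refine ⟨1, one_ne_zero, h i, Ideal.subset_span ⟨i, rfl⟩, ?_⟩
    rw [Int.cast_one, C_1, one_mul]
  | zero => exact ⟨1, one_ne_zero, 0, Ideal.zero_mem _, by rw [mul_zero, map_zero]⟩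
  | add x y _ _ hx hy =>
    obtain ⟨N, hN, f', hf, hf'⟩ := hx
    obtain ⟨M, hM, g', hg, hg'⟩ := hy
    refine ⟨N * M, mul_ne_zero hN hM, C M * f' + C N * g', Ideal.add_mem _ (Ideal.mul_mem_left _ _ hf)
      (Ideal.mul_mem_left _ _ hg), ?_⟩
    rw [map_add, map_mul, map_mul, ← hf', ← hg', map_C, map_C, eq_intCast, eq_intCast, Int.cast_mul, C_mul]
    ring
  | smul a x _ hx =>
    obtain ⟨N, hN, f', hf, hf'⟩ := hx
    obtain ⟨M, hM, a', ha'⟩ := exists_den a
    refine ⟨M * N, mul_ne_zero hM hN, a' * f', Ideal.mul_mem_left _ _ hf, ?_⟩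
    rw [map_mul, ← hf', ← ha', Int.cast_mul, C_mul, smul_eq_mul]
    ring

/-- The common zeros of the coefficients. -/
lemma eq_zero_of_eval {A : σ → Matrix (Fin r) (Fin r) (PowerSeries ℤ)}
    (hA : ∀ c : σ → ℂ, IsNilpotent (Matrix.of fun k l => ∑ s, PowerSeries.C (c s) *
        (A s k l).map (Int.castRingHom ℂ) : Matrix (Fin r) (Fin r) (PowerSeries ℂ)) → c = 0)
    {c : σ → ℂ} (h1 : ∀ i, eval₂ (Int.castRingHom ℂ) c (hz A i) = 0) : c = 0 := by
  refine hA c ⟨r, ?_⟩
  set M := (Matrix.of fun k l => ∑ s, PowerSeries.C (c s) *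
    (A s k l).map (Int.castRingHom ℂ) : Matrix (Fin r) (Fin r) (PowerSeries ℂ)) with hM
  have h3 : M.charpoly = Polynomial.X ^ r := by
    ext1 j
    rw [Polynomial.coeff_X_pow]
    rcases lt_trichotomy j r with h | h | h
    · rw [if_neg (by omega)]
      ext l
      rw [map_zero, ← h1 (⟨j, h⟩, l), eval_hz]
    · rw [if_pos h, h]
      have h4 := Matrix.charpoly_monic M
      have h5 := Matrix.charpoly_natDegree_eq_dim M
      rw [Fintype.card_fin] at h5
      rw [Polynomial.Monic, Polynomial.leadingCoeff, h5] at h4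
      exact h4
    · rw [if_neg (by omega)]
      refine Polynomial.coeff_eq_zero_of_natDegree_lt ?_
      rw [Matrix.charpoly_natDegree_eq_dim, Fintype.card_fin]
      exact h
  have h4 := Matrix.aeval_self_charpoly M
  rwa [h3, map_pow, Polynomial.aeval_X] at h4

/-- The rank one. -/
lemma hz_one {T : Type*} [CommRing T] (A : σ → Matrix (Fin 1) (Fin 1) (PowerSeries T)) (i : Fin 1 × ℕ) :
    hz A i = -∑ s, C (PowerSeries.coeff i.2 (A s 0 0)) * X s := by
  classical
  have h1 : (tm A).charpoly.coeff (i.1 : ℕ) = -∑ s, C (A s 0 0) * X s := by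
    have h2 : ((i.1 : Fin 1) : ℕ) = 0 := by omega
    rw [h2, Matrix.charpoly, Matrix.det_fin_one, Matrix.charmatrix_apply_eq, Polynomial.coeff_sub,
      Polynomial.coeff_X_zero, Polynomial.coeff_C_zero, zero_sub]
    rfl
  ext a
  unfold hz
  rw [h1, coeff_cz, coeff_neg, coeff_neg, map_neg, coeff_sum, coeff_sum, map_sum]
  congr 1
  refine Finset.sum_congr rfl fun s _ => ?_
  rw [coeff_C_mul, coeff_C_mul, coeff_X, coeff_X]
  split_ifs
  · rw [mul_one, mul_one]
  · rw [mul_zero, mul_zero, map_zero]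

/-- In rank one the variables are in the ideal. -/
lemma mem_one (A : σ → Matrix (Fin 1) (Fin 1) (PowerSeries ℤ))
    (hA : ∀ c : σ → ℂ, IsNilpotent (Matrix.of fun k l => ∑ s, PowerSeries.C (c s) *
        (A s k l).map (Int.castRingHom ℂ) : Matrix (Fin 1) (Fin 1) (PowerSeries ℂ)) → c = 0) (s : σ) :
    (X s : MvPolynomial σ ℚ) ∈ Ideal.span (Set.range fun i => MvPolynomial.map (Int.castRingHom ℚ) (hz A i)) := by
  classical
  by_contra hcon
  have h1 : (X s : MvPolynomial σ ℚ) ∉
      Submodule.span ℚ (Set.range fun i => MvPolynomial.map (Int.castRingHom ℚ) (hz A i)) := by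
    intro h
    refine hcon ?_
    have h2 : Submodule.span ℚ (Set.range fun i => MvPolynomial.map (Int.castRingHom ℚ) (hz A i)) ≤
        (Ideal.span (Set.range fun i => MvPolynomial.map (Int.castRingHom ℚ) (hz A i))).restrictScalars ℚ :=
      Submodule.span_le.2 fun x hx => Ideal.subset_span hx
    exact h2 h
  obtain ⟨f, hf, hf'⟩ := Submodule.exists_le_ker_of_notMem h1
  have h2 : (fun t => ((f (X t) : ℚ) : ℂ)) = 0 := by
    refine eq_zero_of_eval hA fun i => ?_
    have h3 : f (MvPolynomial.map (Int.castRingHom ℚ) (hz A i)) = 0 := hf' (Submodule.subset_span ⟨i, rfl⟩)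
    rw [hz_one, map_neg, map_neg, neg_eq_zero, map_sum, map_sum] at h3
    rw [hz_one, eval₂_neg, neg_eq_zero, eval₂_sum]
    have h4 : ∀ t, f (MvPolynomial.map (Int.castRingHom ℚ) (C (PowerSeries.coeff i.2 (A t 0 0)) * X t)) =
        ((PowerSeries.coeff i.2 (A t 0 0) : ℤ) : ℚ) * f (X t) := by
      intro t
      rw [map_mul, map_C, map_X, eq_intCast, ← smul_eq_C_mul, map_smul, smul_eq_mul]
    rw [Finset.sum_congr rfl fun t _ => h4 t] at h3
    have h5 : (((∑ t, ((PowerSeries.coeff i.2 (A t 0 0) : ℤ) : ℚ) * f (X t)) : ℚ) : ℂ) = 0 := by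
      rw [h3, Rat.cast_zero]
    rw [Rat.cast_sum] at h5
    rw [← h5]
    refine Finset.sum_congr rfl fun t _ => ?_
    rw [eval₂_mul, eval₂_C, eval₂_X, eq_intCast, Rat.cast_mul, Rat.cast_intCast]
  have h3 := congrFun h2 s
  simp only [Pi.zero_apply, Rat.cast_eq_zero] at h3
  exact hf h3

/-- The variables are nilpotent modulo the ideal of the coefficients. -/
lemma mem_rad (A : σ → Matrix (Fin r) (Fin r) (PowerSeries ℤ))
    (hA : ∀ c : σ → ℂ, IsNilpotent (Matrix.of fun k l => ∑ s, PowerSeries.C (c s) *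
        (A s k l).map (Int.castRingHom ℂ) : Matrix (Fin r) (Fin r) (PowerSeries ℂ)) → c = 0) :
    ∃ e : ℕ, 0 < e ∧ (r = 1 → e = 1) ∧ ∀ s, (X s : MvPolynomial σ ℚ) ^ e ∈
      Ideal.span (Set.range fun i => MvPolynomial.map (Int.castRingHom ℚ) (hz A i)) := by
  classical
  by_cases hr : r = 1
  · subst hr
    refine ⟨1, one_pos, fun _ => rfl, fun s => ?_⟩
    rw [pow_one]
    exact mem_one A hA s
  set I : Ideal (MvPolynomial σ ℚ) :=
    Ideal.span (Set.range fun i => MvPolynomial.map (Int.castRingHom ℚ) (hz A i)) with hI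
  have h0 : ∀ s, (X s : MvPolynomial σ ℚ) ∈ I.radical := by
    intro s
    rw [← vanishingIdeal_zeroLocus_eq_radical (K := ℂ) I, mem_vanishingIdeal_iff]
    intro c hc
    rw [mem_zeroLocus_iff] at hc
    have h1 : ∀ i, eval₂ (Int.castRingHom ℂ) c (hz A i) = 0 := by
      intro i
      have h2 := hc (MvPolynomial.map (Int.castRingHom ℚ) (hz A i)) (Ideal.subset_span ⟨i, rfl⟩)
      rw [aeval_def, eval₂_map] at h2
      rw [← h2]
      congr 1
    rw [aeval_X, eq_zero_of_eval hA h1]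
    rfl
  choose e he using fun s => h0 s
  refine ⟨1 + ∑ s, e s, by omega, fun h => absurd h hr, fun s => ?_⟩
  have h2 : e s ≤ ∑ s, e s := Finset.single_le_sum (fun _ _ => Nat.zero_le _) (mem_univ s)
  have h3 : 1 + ∑ s, e s = (1 + ∑ s, e s - e s) + e s := by omega
  rw [h3, pow_add]
  exact Ideal.mul_mem_left _ _ (he s)

/-- **The exponent.** -/
theorem exists_exp (A : σ → Matrix (Fin r) (Fin r) (PowerSeries ℤ))
    (hA : ∀ c : σ → ℂ, IsNilpotent (Matrix.of fun k l => ∑ s, PowerSeries.C (c s) *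
        (A s k l).map (Int.castRingHom ℂ) : Matrix (Fin r) (Fin r) (PowerSeries ℂ)) → c = 0) :
    ∃ e : ℕ, 0 < e ∧ (r = 1 → e = 1) ∧ ∃ N : ℤ, N ≠ 0 ∧ ∀ p : ℕ, p.Prime → ¬ (p : ℤ) ∣ N → ∀ s,
      (X s : MvPolynomial σ (ZMod p)) ^ e ∈ Ideal.span (Set.range (hz fun s => rd p (A s))) := by
  classical
  obtain ⟨E, hE, hE1, h1⟩ := mem_rad A hA
  choose N hN g hg hg' using fun s => exists_den_ideal (hz A) (h1 s)
  refine ⟨E, hE, hE1, ∏ s, N s, Finset.prod_ne_zero_iff.2 fun s _ => hN s, fun p hp hpN s => ?_⟩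
  have hfact : Fact p.Prime := ⟨hp⟩
  have h2 : C (N s) * (X s : MvPolynomial σ ℤ) ^ E = g s := by
    apply MvPolynomial.map_injective (Int.castRingHom ℚ) (RingHom.injective_int _)
    rw [← hg', map_mul, map_C, map_pow, map_X, eq_intCast]
  have h3 : (C (N s) * (X s : MvPolynomial σ ℤ) ^ E) ∈ Ideal.span (Set.range (hz A)) := by
    rw [h2]
    exact hg s
  have h4 := Ideal.mem_map_of_mem (MvPolynomial.map (Int.castRingHom (ZMod p))) h3
  rw [Ideal.map_span, ← Set.range_comp] at h4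
  have h5 : (⇑(MvPolynomial.map (Int.castRingHom (ZMod p))) ∘ hz A) = hz fun s => rd p (A s) := by
    funext i
    exact map_hz _ A i
  rw [h5, map_mul, map_C, map_pow, map_X, eq_intCast] at h4
  have h6 : ((N s : ℤ) : ZMod p) ≠ 0 := by
    intro h
    rw [ZMod.intCast_zmod_eq_zero_iff_dvd] at h
    exact hpN (h.trans (Finset.dvd_prod_of_mem _ (mem_univ s)))
  have h7 := Ideal.mul_mem_left _ (C ((N s : ZMod p)⁻¹)) h4
  rwa [← mul_assoc, ← C_mul, inv_mul_cancel₀ h6, C_1, one_mul] at h7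

end Pool.Agent.H446.AP9
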