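import Pool.Agent.H446.AP6.CoreP

/-!
# Short orbits: the test polynomials
-/

set_option autoImplicit false

namespace Pool.Agent.H446.AP9

open Polynomial Finset

open Pool.Agent.H446.AP6 (TestR IsPl)

/-- The iterates of a polynomial. -/
noncomputable def it (f : ℤ[X]) : ℕ → ℤ[X]
  | 0 => X
  | n + 1 => f.comp (it f n)

lemma aeval_it (f : ℤ[X]) (n : ℕ) (z : ℂ) : aeval z (it f n) = (fun w : ℂ => aeval w f)^[n] z := by
  induction n with
  | zero => simp [it]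
  | succ n ih => rw [it, Function.iterate_succ_apply', ← ih, aeval_comp]

lemma natDegree_it (f : ℤ[X]) (n : ℕ) : (it f n).natDegree = f.natDegree ^ n := by
  induction n with
  | zero => rw [it, natDegree_X, pow_zero]
  | succ n ih => rw [it, natDegree_comp, ih, pow_succ']

lemma lc_it {f : ℤ[X]} (hf : 2 ≤ f.natDegree) {p : ℕ} (hp : p.Prime) (h : ¬ (p : ℤ) ∣ f.leadingCoeff) (n : ℕ) :
    ¬ (p : ℤ) ∣ (it f n).leadingCoeff := by
  have hpi := Nat.prime_iff_prime_int.1 hp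
  induction n with
  | zero =>
    rw [it, leadingCoeff_X]
    exact hpi.not_dvd_one
  | succ n ih =>
    have h1 : (it f n).natDegree ≠ 0 := by
      rw [natDegree_it]
      positivity
    rw [it, leadingCoeff_comp h1]
    intro h2
    rcases hpi.dvd_or_dvd h2 with h3 | h3
    · exact h h3
    · exact ih (hpi.dvd_of_dvd_pow h3)

/-- The difference of the iterates of order `n` and `n - k`. -/
noncomputable def df (f : ℤ[X]) (n k : ℕ) : ℤ[X] := it f n - it f (n - k)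

lemma degree_lt {f : ℤ[X]} (hf : 2 ≤ f.natDegree) {n k : ℕ} (hk : 1 ≤ k) (hkn : k ≤ n) :
    (it f (n - k)).degree < (it f n).degree := by
  apply degree_lt_degree
  rw [natDegree_it, natDegree_it]
  exact Nat.pow_lt_pow_right hf (by omega)

lemma natDegree_df {f : ℤ[X]} (hf : 2 ≤ f.natDegree) {n k : ℕ} (hk : 1 ≤ k) (hkn : k ≤ n) :
    (df f n k).natDegree = f.natDegree ^ n := by
  rw [df, natDegree_sub_eq_left_of_natDegree_lt, natDegree_it]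
  rw [natDegree_it, natDegree_it]
  exact Nat.pow_lt_pow_right hf (by omega)

lemma lc_df {f : ℤ[X]} (hf : 2 ≤ f.natDegree) {n k : ℕ} (hk : 1 ≤ k) (hkn : k ≤ n) :
    (df f n k).leadingCoeff = (it f n).leadingCoeff :=
  leadingCoeff_sub_of_degree_lt (degree_lt hf hk hkn)

/-- The test polynomial. -/
noncomputable def tp (f : ℤ[X]) (n : ℕ) : ℤ[X] := ∏ k ∈ Icc 1 n, df f n k

lemma natDegree_tp {f : ℤ[X]} (hf : 2 ≤ f.natDegree) (n : ℕ) : (tp f n).natDegree = n * f.natDegree ^ n := by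
  rw [tp, natDegree_prod]
  · rw [Finset.sum_congr rfl fun k hk => natDegree_df hf (mem_Icc.1 hk).1 (mem_Icc.1 hk).2, Finset.sum_const,
      Nat.card_Icc, Nat.add_sub_cancel, smul_eq_mul]
  · intro k hk h0
    have h1 := natDegree_df hf (mem_Icc.1 hk).1 (mem_Icc.1 hk).2
    rw [h0, natDegree_zero] at h1
    have : 0 < f.natDegree ^ n := by positivity
    omega

lemma lc_tp {f : ℤ[X]} (hf : 2 ≤ f.natDegree) {p : ℕ} (hp : p.Prime) (h : ¬ (p : ℤ) ∣ f.leadingCoeff) (n : ℕ) :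
    ¬ (p : ℤ) ∣ (tp f n).leadingCoeff := by
  have hpi := Nat.prime_iff_prime_int.1 hp
  rw [tp, leadingCoeff_prod, Finset.prod_congr rfl fun k hk => lc_df hf (mem_Icc.1 hk).1 (mem_Icc.1 hk).2,
    Finset.prod_const]
  exact fun h1 => lc_it hf hp h n (hpi.dvd_of_dvd_pow h1)

lemma coe_aeval (O : Subring ℂ) (z : O) (f : ℤ[X]) : ((aeval z f : O) : ℂ) = aeval (z : ℂ) f := by
  have h1 := hom_eval₂ f (algebraMap ℤ O) O.subtype z
  rw [aeval_def, aeval_def]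
  have h2 : O.subtype.comp (algebraMap ℤ O) = algebraMap ℤ ℂ := RingHom.ext_int _ _
  rw [h2] at h1
  exact h1

lemma aeval_mem' (O : Subring ℂ) {z : ℂ} (hz : z ∈ O) (f : ℤ[X]) : aeval z f ∈ O := by
  rw [← coe_aeval O ⟨z, hz⟩]
  exact SetLike.coe_mem _

lemma iter_mem (O : Subring ℂ) {z : ℂ} (hz : z ∈ O) (f : ℤ[X]) (n : ℕ) : (fun w : ℂ => aeval w f)^[n] z ∈ O := by
  rw [← aeval_it]
  exact aeval_mem' O hz _

lemma sub_step (O : Subring ℂ) {a b : ℂ} (ha : a ∈ O) (hb : b ∈ O) (f : ℤ[X]) {p : ℕ} (h : ∃ y ∈ O, a - b = p * y) :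
    ∃ y ∈ O, aeval a f - aeval b f = p * y := by
  obtain ⟨y, hy, h⟩ := h
  have h1 := sub_dvd_eval_sub (⟨a, ha⟩ : O) ⟨b, hb⟩ (f.map (algebraMap ℤ O))
  obtain ⟨c, hc⟩ := h1
  rw [eval_map_algebraMap, eval_map_algebraMap] at hc
  have h2 := congrArg (fun z : O => (z : ℂ)) hc
  simp only [AddSubgroupClass.coe_sub, Subring.coe_mul, coe_aeval] at h2
  refine ⟨y * c, O.mul_mem hy c.2, ?_⟩
  rw [h2, h]
  ring

lemma sub_iter (O : Subring ℂ) {a b : ℂ} (ha : a ∈ O) (hb : b ∈ O) (f : ℤ[X]) {p : ℕ} (h : ∃ y ∈ O, a - b = p * y)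
    (n : ℕ) : ∃ y ∈ O, (fun w : ℂ => aeval w f)^[n] a - (fun w : ℂ => aeval w f)^[n] b = p * y := by
  rw [← aeval_it, ← aeval_it]
  exact sub_step O ha hb _ h

/-- The orbit of `z` modulo `p` has at most `n` elements. -/
def OrbLE (f : ℤ[X]) (O : Subring ℂ) (p n : ℕ) (z : ℂ) : Prop :=
  z ∈ O ∧ ∃ i j : ℕ, i < j ∧ j ≤ n ∧ ∃ y ∈ O,
    (fun w : ℂ => aeval w f)^[j] z - (fun w : ℂ => aeval w f)^[i] z = p * y

lemma OrbLE.mono {f : ℤ[X]} {O : Subring ℂ} {p n m : ℕ} {z : ℂ} (h : OrbLE f O p n z) (hnm : n ≤ m) :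
    OrbLE f O p m z := by
  obtain ⟨h1, i, j, h2, h3, h4⟩ := h
  exact ⟨h1, i, j, h2, h3.trans hnm, h4⟩

lemma aeval_tp_of_orbLE {f : ℤ[X]} {O : Subring ℂ} {p n : ℕ} {z : ℂ} (h : OrbLE f O p n z) :
    ∃ y ∈ O, aeval z (tp f n) = p * y := by
  classical
  obtain ⟨hz, i, j, hij, hjn, hy⟩ := h
  obtain ⟨y, hy, h1⟩ := sub_iter O (iter_mem O hz f j) (iter_mem O hz f i) f hy (n - j)
  rw [← Function.iterate_add_apply, ← Function.iterate_add_apply, show n - j + j = n by omega,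
    show n - j + i = n - (j - i) by omega, ← aeval_it, ← aeval_it, ← map_sub] at h1
  have hmem : j - i ∈ Icc 1 n := mem_Icc.2 ⟨by omega, by omega⟩
  rw [tp, map_prod, ← Finset.mul_prod_erase _ _ hmem]
  refine ⟨y * ∏ k ∈ (Icc 1 n).erase (j - i), aeval z (df f n k), O.mul_mem hy (O.prod_mem fun k _ => ?_), ?_⟩
  · exact aeval_mem' O hz _
  · rw [df, h1]
    ring

/-- **The test.** -/
theorem testR_orb {f : ℤ[X]} (hf : 2 ≤ f.natDegree) {κ : ℝ} (hκ : 0 ≤ κ) {p : ℕ} (hp : p.Prime)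
    (hlc : ¬ (p : ℤ) ∣ f.leadingCoeff) {O : Subring ℂ} (hO : IsPl p O) :
    TestR κ 0 (fun z => ∃ n : ℕ, (n : ℝ) * (f.natDegree : ℝ) ^ n ≤ κ * p ∧ OrbLE f O p n z) p := by
  classical
  obtain ⟨N, hN, hN'⟩ : ∃ N : ℕ, (N : ℝ) * (f.natDegree : ℝ) ^ N ≤ κ * p ∧
      ∀ n : ℕ, (n : ℝ) * (f.natDegree : ℝ) ^ n ≤ κ * p → n ≤ N := by
    have h1 : ∀ n : ℕ, (n : ℝ) * (f.natDegree : ℝ) ^ n ≤ κ * p → n ≤ ⌊κ * p⌋₊ := by
      intro n hn
      refine Nat.le_floor (le_trans ?_ hn)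
      have h2 : (1 : ℝ) ≤ f.natDegree := by exact_mod_cast (by omega : 1 ≤ f.natDegree)
      have h3 : (1 : ℝ) ≤ (f.natDegree : ℝ) ^ n := one_le_pow₀ h2
      nlinarith [Nat.cast_nonneg (α := ℝ) n]
    have h2 : (0 : ℕ) ≤ ⌊κ * p⌋₊ := Nat.zero_le _
    have h3 : (((0 : ℕ) : ℕ) : ℝ) * (f.natDegree : ℝ) ^ (0 : ℕ) ≤ κ * p := by
      rw [Nat.cast_zero, zero_mul]
      positivity
    refine ⟨Nat.findGreatest (fun n : ℕ => (n : ℝ) * (f.natDegree : ℝ) ^ n ≤ κ * p) ⌊κ * p⌋₊,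
      Nat.findGreatest_spec (P := fun n : ℕ => (n : ℝ) * (f.natDegree : ℝ) ^ n ≤ κ * p) h2 h3, fun n hn =>
        Nat.le_findGreatest (h1 n hn) hn⟩
  refine ⟨hp, O, tp f N, hO, lc_tp hf hp hlc N, ?_, ?_⟩
  · rw [natDegree_tp hf]
    push_cast
    rw [add_zero]
    exact hN
  · rintro z ⟨n, hn, h⟩
    exact ⟨h.1, aeval_tp_of_orbLE (h.mono (hN' n hn))⟩

end Pool.Agent.H446.AP9
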