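import Pool.Agent.H446.AP5.CurvN

/-!
# The leading forms of the characteristic polynomial of the curvature of a filtered family
-/

set_option autoImplicit false

namespace Pool.Agent.H446.AP9

open Finset MvPolynomial
open Pool.Agent.H446.AP4 (Sup topc mapc coeff_mapc curv curv_succ curv_sup curv_top map_curv
  topc_natCast topc_zero topc_mul topc_sum topc_add sup_zero sup_C sup_mapc topc_eq_zero)
open Pool.Agent.H446.AP5 (mvc coeff_mvc sc coeff_sc sc_mvc sc_C sup_charpoly wt)

variable {σ : Type*} [Fintype σ] {r : ℕ} {O : Type*} [CommRing O]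

/-- The matrix of the leading forms. -/
noncomputable def ltop (d : σ → ℕ) (w : Fin r → ℝ) (A : Matrix (Fin r) (Fin r) (MvPolynomial σ O)) :
    Matrix (Fin r) (Fin r) (MvPolynomial σ O) := Matrix.of fun i j => topc (1 + w i - w j) (sc d (A i j))

/-- The curvature of the family. -/
noncomputable def cm (p : ℕ) (δ : O → O) (A : Matrix (Fin r) (Fin r) (MvPolynomial σ O)) :
    Matrix (Fin r) (Fin r) (MvPolynomial σ O) := curv (mvc δ) 1 A p

theorem coeff_charpoly_cm {δ : O → O} (hδ : δ 0 = 0) {d : σ → ℕ} {w : Fin r → ℝ}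
    {A : Matrix (Fin r) (Fin r) (MvPolynomial σ O)} (hA : ∀ i j, Sup (1 + w i - w j) (sc d (A i j))) {p : ℕ}
    (j : Fin r) (a : σ →₀ ℕ) (h : ((cm p δ A).charpoly.coeff j).coeff a ≠ 0 ∨ wt d a = p * (r - j)) :
    wt d a ≤ p * (r - j) ∧ (wt d a = p * (r - j) → ((cm p δ A).charpoly.coeff j).coeff a =
      (((ltop d w A) ^ p).charpoly.coeff j).coeff a) := by
  classical
  have h0 : (mvc δ : MvPolynomial σ O → MvPolynomial σ O) 0 = 0 := by
    ext a
    rw [coeff_mvc hδ, coeff_zero, hδ]
  have hM : (cm p δ A).map (sc d) = curv (mapc (mvc δ)) 1 (A.map (sc d)) p := by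
    unfold cm
    rw [map_curv (sc d) (fun r => sc_mvc d hδ r), map_one]
  have h1 : Sup (0 : ℝ) (1 : Polynomial (MvPolynomial σ O)) := by
    rw [← Polynomial.C_1]
    exact sup_C _
  have hBS : ∀ i j, Sup (0 + 1 * (1 + w i - w j)) ((A.map (sc d)) i j) := by
    intro i j
    rw [zero_add, one_mul, Matrix.map_apply]
    exact hA i j
  have hS := curv_sup h0 (δ₀ := 0) (θ := 1) zero_le_one h1 (A.map (sc d)) w hBS p
  have hT := curv_top h0 (δ₀ := 0) (θ := 1) one_pos h1 (A.map (sc d)) w hBS p
  have hBtop : (Matrix.of fun i j => topc ((0 : ℝ) + 1 * (1 + w i - w j)) ((A.map (sc d)) i j)) = ltop d w A := by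
    ext1 i j
    rw [Matrix.of_apply, Matrix.map_apply, zero_add, one_mul]
    rfl
  rw [hBtop] at hT
  have hS' : ∀ i j, Sup ((p : ℕ) + w i - w j) (curv (mapc (mvc δ)) 1 (A.map (sc d)) p i j) := by
    intro i j
    have := hS i j
    have h4 : (0 : ℝ) * p + 1 * (p + w i - w j) = p + w i - w j := by ring
    rwa [h4] at this
  have hT' : (Matrix.of fun i j => topc ((p : ℕ) + w i - w j) (curv (mapc (mvc δ)) 1 (A.map (sc d)) p i j)) =
      (ltop d w A) ^ p := by
    ext1 i j
    rw [Matrix.of_apply, ← hT i j]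
    congr 1
    ring
  have hsc : ∀ a, ((cm p δ A).charpoly.coeff j).coeff a =
      (((curv (mapc (mvc δ)) 1 (A.map (sc d)) p).charpoly.coeff j).coeff (wt d a)).coeff a := by
    intro a
    rw [← hM, Matrix.charpoly_map, Polynomial.coeff_map, coeff_sc, if_pos rfl]
  have hj := j.2
  have hnj : p * (j : ℕ) + p * (r - j) = r * p := by
    rw [← mul_add, Nat.add_sub_cancel' hj.le, mul_comm]
  have hch := sup_charpoly hS' j (wt d a) (by
    rcases h with h | h
    · left
      intro h1
      rw [hsc a, h1, coeff_zero] at h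
      exact h rfl
    · right
      rw [h, Fintype.card_fin]
      exact hnj)
  rw [Fintype.card_fin, hT'] at hch
  refine ⟨by omega, fun he => ?_⟩
  rw [hsc a, hch.2 (by omega)]

/-- In a linear family the leading forms are the linear parts. -/
lemma sup_linear (A₀ : Matrix (Fin r) (Fin r) O) (A : σ → Matrix (Fin r) (Fin r) O) (i j : Fin r) :
    Sup (1 + (0 : ℝ) - 0) (sc (fun _ => 1) (C (A₀ i j) + ∑ s, C (A s i j) * X s : MvPolynomial σ O)) ∧
    topc (1 + (0 : ℝ) - 0) (sc (fun _ => 1) (C (A₀ i j) + ∑ s, C (A s i j) * X s : MvPolynomial σ O)) =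
      ∑ s, C (A s i j) * X s := by
  have h1 : sc (fun _ => 1) (C (A₀ i j) + ∑ s, C (A s i j) * X s : MvPolynomial σ O) =
      Polynomial.C (C (A₀ i j)) + Polynomial.monomial 1 (∑ s, C (A s i j) * X s) := by
    rw [map_add, sc_C, map_sum, map_sum]
    congr 1
    refine Finset.sum_congr rfl fun k _ => ?_
    rw [map_mul, sc_C]
    unfold sc
    rw [eval₂Hom_X', Polynomial.C_mul_monomial]
  have h2 : (1 + (0 : ℝ) - 0) = ((1 : ℕ) : ℝ) := by norm_num
  rw [h1, h2]
  refine ⟨fun k hk => ?_, ?_⟩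
  · rw [Polynomial.coeff_add, Polynomial.coeff_C, Polynomial.coeff_monomial] at hk
    by_contra hcon
    push Not at hcon
    have h1 : 1 < k := by exact_mod_cast hcon
    rw [if_neg (by omega), if_neg (by omega), add_zero] at hk
    exact hk rfl
  · rw [topc_natCast, Polynomial.coeff_add, Polynomial.coeff_C, Polynomial.coeff_monomial, if_neg (by omega),
      if_pos rfl, zero_add]

end Pool.Agent.H446.AP9
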